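import Mathlib
import Pool.Agent.Lib.MP_73fdb2_co.Defs
import Pool.Agent.Lib.MP_73fdb2_co.Configs

set_option autoImplicit false

open Pool.Agent.Lib.MP_73fdb2_co

/-- For all distinct `i`, `j` there is a finite arc `j`-visibility graph (with closed proper arcs)
which is not an arc `i`-visibility graph (even when arcs are taken in the widest sense). -/
theorem Pool.Agent.Variants.MP_73fdb2_co.Incomparable.result :
    ∀ i j : ℕ, i ≠ j → ∃ (V : Type) (_ : Finite V) (G : SimpleGraph V),
      (∃ A : V → Set ℂ, (∀ v, IsClosedArc (A v)) ∧ Represents j G A) ∧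
      ¬ ∃ A : V → Set ℂ, (∀ v, IsWideArc (A v)) ∧ Represents i G A := by
  intro i j hij
  rcases lt_or_gt_of_ne hij with h | h
  · exact case_gt h
  · exact case_lt h
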